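import Mathlib
import Pool.Agent.Carnot.ExMain

/-!
# Failure of the Hilbert-Haar theorem in exponential coordinates of the first kind
-/

namespace Pool.Agent.Results.MP_a956f7_an.FirstKindCounterexample

open MeasureTheory Set Filter Topology Pool.Agent.Carnot
open scoped ContDiff ENNReal NNReal

/-- There are a Carnot group `G` of dimension `12` and step three, written in its exponential
coordinates of the first kind (`Ψ = id`), a Euclidean ball `B` and a smooth `φ` such that for
`p = 2` and `f(ξ) = |ξ|² / 2` a weak solution with boundary values `φ` exists, and every weak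
solution has a horizontal gradient which is not essentially bounded, and is not a.e. equal to a
Lipschitz function. In particular the Hilbert-Haar bound fails for `G` and `B`. -/
theorem result : ∃ (G : CarnotGroup 12) (c : E 12) (r : ℝ) (φ : E 12 → ℝ),
    (∀ i, G.weight i ≤ 3) ∧ 0 < r ∧ UniformlyConvex (Metric.ball c r) ∧ ContDiff ℝ ∞ φ ∧
    IsStructured 2 0 1 1 (fun ξ : G.H => ‖ξ‖ ^ 2 / 2) ∧
    (∃ (u : E 12 → ℝ) (U : E 12 → G.H), G.IsWeakSolution (Equiv.refl _) 2
      (fun ξ : G.H => ‖ξ‖ ^ 2 / 2) (Metric.ball c r) φ u U) ∧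
    (∀ (u : E 12 → ℝ) (U : E 12 → G.H), G.IsWeakSolution (Equiv.refl _) 2
      (fun ξ : G.H => ‖ξ‖ ^ 2 / 2) (Metric.ball c r) φ u U →
        (∀ M : ℝ, ¬ ∀ᵐ x ∂(volume.restrict (Metric.ball c r)), ‖U x‖ ≤ M) ∧
        ∀ (K : ℝ≥0) (v : E 12 → ℝ), LipschitzOnWith K v (Metric.ball c r) →
          ¬ ∀ᵐ x ∂(volume.restrict (Metric.ball c r)), u x = v x) ∧
    ¬ G.HilbertHaarBound (Equiv.refl _) (Metric.ball c r) := by
  have hex : ∃ (u : E 12 → ℝ) (U : E 12 → exG.H), exG.IsWeakSolution (Equiv.refl _) 2
      (quad exG.H) exΩ exφ u U :=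
    exG.exists_isWeakSolution (Equiv.refl _) contDiff_id contDiff_id (MeasurePreserving.id _)
      (MeasurePreserving.id _) Metric.isOpen_ball Metric.isBounded_ball contDiff_exφ
      (contDiff_coord 0).continuous exS_shift0
  refine ⟨exG, exC, 200, exφ, exG_weight_le, by norm_num, uniformlyConvex_ball _ (by norm_num),
    contDiff_exφ, isStructured_quad, hex, fun u U hsol => ⟨not_bounded hsol, ?_⟩, ?_⟩
  · intro K v hv huv
    obtain ⟨v', hv', hvv⟩ := hv.extend_real
    have huv' : ∀ᵐ x ∂(volume.restrict exΩ), u x = v' x := by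
      filter_upwards [huv, ae_restrict_mem Metric.isOpen_ball.measurableSet] with x h1 h2
      rw [h1, hvv h2]
    have hΩb : Bornology.IsBounded exΩ := Metric.isBounded_ball
    obtain ⟨B, hB⟩ := hΩb.isCompact_closure.exists_bound_of_continuousOn
      (f := fun y => exS.xi y) exS.continuous_xi.continuousOn
    have hfin : IsFiniteMeasure ((volume : Measure (E 12)).restrict exΩ) := by
      constructor
      rw [Measure.restrict_apply_univ]
      exact hΩb.measure_lt_top
    have hUi : Integrable U (volume.restrict exΩ) := by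
      have h1 : MemLp U (ENNReal.ofReal 2) (volume.restrict exΩ) := hsol.hw.memLp_grad
      exact h1.integrable (by norm_num)
    have hweak := CarnotGroup.HW.weak_all exG (Equiv.refl _) contDiff_id contDiff_id
      (MeasurePreserving.id _) (MeasurePreserving.id _) (by norm_num) hΩb hsol.hw
    exact not_bounded hsol _ (grad_bound (S := exS) Metric.isOpen_ball hv' huv' hUi hweak
      (fun x hx => hB x (subset_closure hx)))
  · intro hHH
    have hΩb : Bornology.IsBounded exΩ := Metric.isBounded_ball
    have hφ2 : ContDiff ℝ 2 exφ := contDiff_exφ.of_le (by norm_cast)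
    have hc1 : Continuous (fderiv ℝ exφ) := hφ2.continuous_fderiv (by norm_num)
    have hc2 : Continuous (fderiv ℝ (fderiv ℝ exφ)) := by
      have h1 : ContDiff ℝ 1 (fderiv ℝ exφ) := hφ2.fderiv_right (by norm_num)
      exact h1.continuous_fderiv one_ne_zero
    obtain ⟨K₁, hK₁⟩ := hΩb.isCompact_closure.exists_bound_of_continuousOn
      (f := fun y => fderiv ℝ exφ y) hc1.continuousOn
    obtain ⟨K₂, hK₂⟩ := hΩb.isCompact_closure.exists_bound_of_continuousOn
      (f := fun y => fderiv ℝ (fderiv ℝ exφ) y) hc2.continuousOn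
    obtain ⟨M, hM⟩ := hHH (K₁ + K₂)
    obtain ⟨u, U, hsol⟩ := hex
    have h1 := hM exφ ⟨hφ2.contDiffOn, fun x hx => ?_⟩ 2 0 1 1 (quad exG.H) isStructured_quad
      u U hsol
    · exact not_bounded hsol M h1.2
    · exact add_le_add (hK₁ x (subset_closure hx)) (hK₂ x (subset_closure hx))

end Pool.Agent.Results.MP_a956f7_an.FirstKindCounterexample
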