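import Mathlib
import Pool.Agent.Carnot.GroupSys

/-!
# Hilbert-Haar coordinates on every Carnot group, and the Lipschitz bound in them
-/

namespace Pool.Agent.Results.MP_a956f7_an.HilbertHaarChart

open MeasureTheory Set Filter Topology Pool.Agent.Carnot
open scoped ContDiff ENNReal NNReal

/-- Every Carnot group has a global coordinate system `Ψ` (a smooth, volume preserving,
dilation-equivariant diffeomorphism of `ℝ^N`, tangent to the identity at the neutral element) in
which the horizontal left-invariant fields have straight integral curves, every linear function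
solves every equation (E), and the Hilbert-Haar theorem holds: for every bounded uniformly convex
domain, weak solutions with `C²` boundary data are Lipschitz with a bound which depends only on the
group, the domain and `sup (|Dφ| + |D²φ|)`. -/
theorem result {N : ℕ} (G : CarnotGroup N) :
    ∃ Ψ : E N ≃ E N, G.IsHilbertHaarChart Ψ ∧
      ∀ Ω : Set (E N), UniformlyConvex Ω → G.HilbertHaarBound Ψ Ω := by
  classical
  have h1 : ContDiff ℝ ∞ G.Psi := G.contDiff_psi
  have h2 : ContDiff ℝ ∞ G.Psi.symm := G.contDiff_Psi_symm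
  have h3 : MeasurePreserving G.Psi volume volume := G.measurePreserving_psi
  have h4 : MeasurePreserving G.Psi.symm volume volume := G.measurePreserving_Psi_symm
  have hline : ∀ x v : E N, (∀ i, G.weight i ≠ 1 → v i = 0) →
        ∃ ξ : E N, ∀ t : ℝ, G.Psi (G.mul x (t • v)) = G.Psi x + t • ξ := fun x v hv =>
    ⟨_, fun t => G.psi_mul_smul x hv t⟩
  set S := G.sysOf G.Psi h1 h2 h3 h4 with hS
  have hstraight : S.Straight := by
    intro t v y
    obtain ⟨ξ, hξ⟩ := hline (G.Psi.symm y) (G.incl v) (G.isHor_incl v)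
    have e1 : ∀ t : ℝ, S.T (t • v) y = y + t • ξ := by
      intro t
      have := hξ t
      rw [Equiv.apply_symm_apply] at this
      rw [← this]
      simp only [hS, CarnotGroup.sysOf, map_smul]
    have e2 : HasDerivAt (fun t : ℝ => y + t • ξ) ξ 0 := by
      simpa using ((hasDerivAt_id (0:ℝ)).smul_const ξ).const_add y
    have e3 : (fun t : ℝ => S.T (t • v) y) = fun t : ℝ => y + t • ξ := funext e1
    have e4 := S.hasDerivAt_T_zero v y
    rw [e3] at e4
    rw [e4.unique e2]
    exact e1 t
  refine ⟨G.Psi, ⟨h1, h2, G.psi_zero, G.fderiv_psi_zero, fun r hr x => G.psi_dil hr x, h3, hline,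
    ?_⟩, ?_⟩
  · intro f ℓ ψ hf hψ
    have e1 := hstraight.affine_weak hf ℓ (hψ.smooth.of_le (by norm_cast)) hψ.compact
    rw [← e1]
    congr 1
    funext x
    rw [G.hgrad_eq G.Psi h1 h2 h3 h4 ℓ.differentiableAt,
      G.hgrad_eq G.Psi h1 h2 h3 h4 (hψ.smooth.differentiable (by simp) x)]
  intro Ω hΩ K
  by_cases hemp : IsEmpty G.HIdx
  · -- the trivial group
    have hsub : Subsingleton (E N) := G.subsingleton_of_isEmpty
    refine ⟨0, fun φ _ p δ lam Lam f _ u U _ => ⟨⟨u, ?_, Eventually.of_forall fun _ => rfl⟩, ?_⟩⟩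
    · intro x y
      rw [Subsingleton.elim x y]
      simp
    · refine Eventually.of_forall fun x => ?_
      have : U x = 0 := Subsingleton.elim _ _
      rw [this, norm_zero]
  rw [not_isEmpty_iff] at hemp
  obtain ⟨i₀⟩ := hemp
  have hℓ : ∀ (t : ℝ) y, (S.T (t • EuclideanSpace.single i₀ (1:ℝ)) y) i₀.1 = y i₀.1 + t := by
    intro t y
    have e1 := G.psi_shift (G.Psi.symm y) i₀ t
    have e2 : G.psi (G.Psi.symm y) = y := G.Psi.apply_symm_apply y
    rw [e2] at e1
    rw [← e1]
    simp only [hS, CarnotGroup.sysOf, map_smul, G.incl_single, CarnotGroup.Psi_apply]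
  obtain ⟨M, hM⟩ := hilbert_haar (G.ltransOf G.Psi h1 h2 h3 h4) hstraight
    (v₀ := EuclideanSpace.single i₀ (1:ℝ)) (ℓ := fun y => y i₀.1)
    (EuclideanSpace.proj (𝕜 := ℝ) i₀.1).continuous hℓ hΩ K
  refine ⟨M, ?_⟩
  rintro φ ⟨hφ, hφK⟩ p δ lam Lam f hf u U hsol
  obtain ⟨ζ, hζ, hz1, hz2⟩ := hsol.boundary
  have hΩo := hΩ.isOpen
  have hφd : ∀ x ∈ Ω, DifferentiableAt ℝ φ x := fun x hx =>
    ((hφ.mono subset_closure).contDiffAt (hΩo.mem_nhds hx)).differentiableAt (by norm_num)
  have hfin : IsFiniteMeasure ((volume : Measure (E N)).restrict Ω) := by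
    constructor
    rw [Measure.restrict_apply_univ]
    exact hΩ.bounded.measure_lt_top
  have hp := hf.one_lt_p
  have hBL := hf.memLp_fderiv hsol.hw.memLp_grad
  have hBi : Integrable (fun x => fderiv ℝ f (U x)) (volume.restrict Ω) := by
    apply hBL.integrable
    rw [← ENNReal.ofReal_one]
    apply ENNReal.ofReal_le_ofReal
    rw [le_div_iff₀ (by linarith)]
    linarith
  have hs : Sol S p f Ω (fun n x => φ x + ζ n x) u U := by
    refine ⟨hsol.hw.memLp, hsol.hw.memLp_grad, ?_, ?_, ?_, ?_⟩
    · intro n
      exact ((hφ.mono subset_closure).of_le (by norm_num)).add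
        ((hζ n).smooth.of_le (by norm_cast)).contDiffOn
    · refine hz1.congr fun n => ?_
      congr 1
      funext x
      ring
    · refine hz2.congr fun n => ?_
      apply eLpNorm_congr_ae
      filter_upwards [ae_restrict_mem hΩo.measurableSet] with x hx
      have hzd : DifferentiableAt ℝ (ζ n) x := (hζ n).smooth.differentiable (by simp) x
      rw [G.hgrad_eq G.Psi h1 h2 h3 h4 (hφd x hx), G.hgrad_eq G.Psi h1 h2 h3 h4 hzd,
        S.grad_add (hφd x hx) hzd]
      abel
    · intro η hη
      apply S.weak_test1 hΩo hΩ.bounded hBi _ hη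
      intro ψ hψ
      rw [← hsol.weak ψ hψ]
      congr 1
      funext x
      rw [G.hgrad_eq G.Psi h1 h2 h3 h4 (hψ.smooth.differentiable (by simp) x)]
  have hweak : ∀ ψ, IsTest Ω ψ → ∀ w : G.H, ∫ x in Ω, u x * fderiv ℝ ψ x (S.xi x w) =
        - ∫ x in Ω, inner ℝ (U x) w * ψ x := by
    intro ψ hψ w
    have hψc : Continuous ψ := hψ.smooth.continuous
    have hui : Integrable u (volume.restrict Ω) := hsol.hw.memLp.integrable (by
      rw [← ENNReal.ofReal_one]; exact ENNReal.ofReal_le_ofReal hp.le)
    have hUi : Integrable U (volume.restrict Ω) := hsol.hw.memLp_grad.integrable (by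
      rw [← ENNReal.ofReal_one]; exact ENNReal.ofReal_le_ofReal hp.le)
    have hw : w = ∑ i, w i • EuclideanSpace.single i (1:ℝ) := by
      ext j
      simp [Pi.single_apply]
    have e1 : ∀ x, u x * fderiv ℝ ψ x (S.xi x w) = ∑ i, w i * (u x * G.X G.Psi i ψ x) := by
      intro x
      conv_lhs => rw [hw]
      rw [map_sum, map_sum, Finset.mul_sum]
      apply Finset.sum_congr rfl
      intro i _
      rw [map_smul, map_smul, smul_eq_mul,
        G.X_eq G.Psi h1 h2 h3 h4 (hψ.smooth.differentiable (by simp) x) i]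
      ring
    have e2 : ∀ x, inner ℝ (U x) w * ψ x = ∑ i, w i * (U x i * ψ x) := by
      intro x
      rw [PiLp.inner_apply, Finset.sum_mul]
      apply Finset.sum_congr rfl
      intro i _
      simp only [RCLike.inner_apply, conj_trivial]
      ring
    obtain ⟨Mψ, hMψ⟩ := hψ.compact.exists_bound_of_continuous hψc
    have i1 : ∀ i, Integrable (fun x => w i * (u x * G.X G.Psi i ψ x)) (volume.restrict Ω) := by
      intro i
      apply Integrable.const_mul
      have e3 : (fun x => u x * G.X G.Psi i ψ x) = fun x =>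
          fderiv ℝ ψ x (S.xi x (EuclideanSpace.single i (1:ℝ))) * u x := by
        funext x
        rw [G.X_eq G.Psi h1 h2 h3 h4 (hψ.smooth.differentiable (by simp) x) i, mul_comm]
      rw [e3]
      have hc : Continuous (fun x => fderiv ℝ ψ x (S.xi x (EuclideanSpace.single i (1:ℝ)))) :=
        (hψ.smooth.continuous_fderiv (by simp)).clm_apply
          (S.continuous_xi.clm_apply continuous_const)
      have hcs : HasCompactSupport
          (fun x => fderiv ℝ ψ x (S.xi x (EuclideanSpace.single i (1:ℝ)))) := by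
        refine HasCompactSupport.intro hψ.compact (fun y hy => ?_)
        have : fderiv ℝ ψ y = 0 := by
          have h1 := support_fderiv_subset ℝ (f := ψ)
          by_contra h
          exact hy (h1 h)
        rw [this]; simp
      obtain ⟨C, hC⟩ := hcs.exists_bound_of_continuous hc
      exact hui.bdd_mul hc.aestronglyMeasurable (Eventually.of_forall hC)
    have i2 : ∀ i, Integrable (fun x => w i * (U x i * ψ x)) (volume.restrict Ω) := by
      intro i
      apply Integrable.const_mul
      have e3 : (fun x => U x i * ψ x) = fun x => ψ x * U x i := by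
        funext x; ring
      rw [e3]
      have hUii : Integrable (fun x => U x i) (volume.restrict Ω) :=
        (EuclideanSpace.proj (𝕜 := ℝ) i).integrable_comp hUi
      exact hUii.bdd_mul hψc.aestronglyMeasurable (Eventually.of_forall hMψ)
    simp_rw [e1, e2]
    rw [integral_finsetSum _ (fun i _ => i1 i), integral_finsetSum _ (fun i _ => i2 i),
      ← Finset.sum_neg_distrib]
    apply Finset.sum_congr rfl
    intro i _
    rw [integral_const_mul, integral_const_mul, hsol.hw.weak ψ hψ i]
    ring
  exact hM φ hφ hφK p δ lam Lam f hf ζ u U hζ hs hweak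

end Pool.Agent.Results.MP_a956f7_an.HilbertHaarChart
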